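import Pool.Agent.H30.BV.Targets

/-!
C4: lower bound by the 3-4-1 inequality (board bv_modules, MP_04ff0f_nt).
-/

set_option autoImplicit false

open Finset Real ArithmeticFunction
open scoped Nat

namespace Pool.Agent.H3.BV

open Pool.Agent.H30.BV

theorem ds_zero {q : ℕ} (χ : DirichletCharacter ℂ q) (s : ℂ) :
    DS (cv χ) 0 s = LSeries (fun n => χ n) s := by
  unfold DS cv
  simp

theorem prod_ge {q : ℕ} (χ : DirichletCharacter ℂ q) {x : ℝ} (hx : 0 < x) (y : ℝ) :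
    1 ≤ ‖DS (cv (1 : DirichletCharacter ℂ q)) 0 (1 + x)‖ ^ 3 *
      ‖DS (cv χ) 0 (1 + x + Complex.I * y)‖ ^ 4 *
      ‖DS (cv (χ ^ 2)) 0 (1 + x + 2 * Complex.I * y)‖ := by
  have h1 := DirichletCharacter.norm_LSeries_product_ge_one χ hx y
  rw [norm_mul, norm_mul, norm_pow, norm_pow] at h1
  rw [ds_zero, ds_zero, ds_zero]
  exact h1

theorem cv_norm {q : ℕ} (χ : DirichletCharacter ℂ q) (n : ℕ) : ‖cv χ n‖ ≤ 1 :=
  DirichletCharacter.norm_le_one χ _

/-- the real inequality behind the choice of the constants -/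
theorem real_step {A0 A1 A2 e η l K0 K2 D : ℝ} (he : 0 < e) (hη : 0 < η) (hl : 1 ≤ l)
    (hK0 : 1 ≤ K0) (hK2 : 1 ≤ K2) (hD : 1 ≤ D) (hA0 : 0 ≤ A0) (hA1 : 0 ≤ A1) (hA2 : 0 ≤ A2)
    (h0 : A0 ≤ K0 / e) (h2 : A2 ≤ K2 * l / η) (h : 1 ≤ A0 ^ 3 * A1 ^ 4 * A2)
    (hc : 16 * K0 ^ 3 * K2 * D ^ 4 * (e * l ^ 9) ≤ η) : 2 * D * e * l ^ 2 ≤ A1 := by
  by_contra hcon
  rw [not_le] at hcon
  have hl0 : 0 < l := by linarith
  have hB : 0 < 2 * D * e * l ^ 2 := by positivity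
  have h4 : A1 ^ 4 < (2 * D * e * l ^ 2) ^ 4 := pow_lt_pow_left₀ hcon hA1 (by norm_num)
  have h3 : A0 ^ 3 ≤ (K0 / e) ^ 3 := pow_le_pow_left₀ hA0 h0 3
  have hP : 0 < (K0 / e) ^ 3 := by positivity
  have hQ : 0 < K2 * l / η := by positivity
  have h5 : A0 ^ 3 * A1 ^ 4 * A2 ≤ (K0 / e) ^ 3 * A1 ^ 4 * (K2 * l / η) := by
    have h6 : A0 ^ 3 * A1 ^ 4 ≤ (K0 / e) ^ 3 * A1 ^ 4 :=
      mul_le_mul_of_nonneg_right h3 (by positivity)
    exact mul_le_mul h6 h2 hA2 (by positivity)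
  have h7 : (K0 / e) ^ 3 * A1 ^ 4 * (K2 * l / η) <
      (K0 / e) ^ 3 * (2 * D * e * l ^ 2) ^ 4 * (K2 * l / η) := by
    have h8 : (K0 / e) ^ 3 * A1 ^ 4 < (K0 / e) ^ 3 * (2 * D * e * l ^ 2) ^ 4 :=
      mul_lt_mul_of_pos_left h4 hP
    exact mul_lt_mul_of_pos_right h8 hQ
  have h9 : (K0 / e) ^ 3 * (2 * D * e * l ^ 2) ^ 4 * (K2 * l / η) =
      16 * K0 ^ 3 * K2 * D ^ 4 * (e * l ^ 9) / η := by
    field_simp
    ring
  have h10 : 16 * K0 ^ 3 * K2 * D ^ 4 * (e * l ^ 9) / η ≤ 1 := (div_le_one hη).2 hc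
  linarith

theorem c4 (hCB : T_CB) (hPB : T_PB) (hPR : T_PR) (hTL : T_TL) (hDV : T_DV) : T_C4 := by
  obtain ⟨CP, hCP, hPB0⟩ := hPB 0
  obtain ⟨CR, hCR, hPR⟩ := hPR
  obtain ⟨CD, hCD, hDV⟩ := hDV
  set K0 : ℝ := 1 + CR with hK0
  set K2 : ℝ := 1 + 2 * CR + 2 * CP with hK2
  set D : ℝ := 1 + CD with hD
  have hK0' : 1 ≤ K0 := by linarith
  have hK2' : 1 ≤ K2 := by linarith
  have hD' : 1 ≤ D := by linarith
  set M : ℝ := 16 * K0 ^ 3 * K2 * D ^ 4 with hM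
  have hM1 : 1 ≤ M := by
    have h1 : 1 ≤ K0 ^ 3 := one_le_pow₀ hK0'
    have h2 : 1 ≤ D ^ 4 := one_le_pow₀ hD'
    have h3 : 1 ≤ K0 ^ 3 * K2 := one_le_mul_of_one_le_of_one_le h1 hK2'
    have h4 : 1 ≤ K0 ^ 3 * K2 * D ^ 4 := one_le_mul_of_one_le_of_one_le h3 h2
    have h5 : M = 16 * (K0 ^ 3 * K2 * D ^ 4) := by rw [hM]; ring
    linarith
  have hM0 : 0 < M := by linarith
  refine ⟨1 / (3 * M), by positivity, ?_⟩
  intro q χ η s hq hχ hη hη1 hs1 hs2 hcase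
  set t : ℝ := s.im with ht
  set l : ℝ := Real.log (q * (|t| + 3)) with hl
  have hq1 : (1 : ℝ) ≤ q := by exact_mod_cast hq
  have ht0 : 0 ≤ |t| := abs_nonneg t
  have hl3 : Real.log 3 ≤ l := by
    apply Real.log_le_log (by norm_num)
    have h1 : (1 : ℝ) * 3 ≤ q * (|t| + 3) := mul_le_mul hq1 (by linarith) (by norm_num) (by linarith)
    linarith
  have hlog3 : (1 : ℝ) ≤ Real.log 3 := by
    rw [Real.le_log_iff_exp_le (by norm_num)]
    have := Real.exp_one_lt_d9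
    linarith
  have hl1 : 1 ≤ l := hlog3.trans hl3
  have hl0 : 0 < l := by linarith
  set e : ℝ := η / (M * l ^ 9) with he
  have hl9 : 1 ≤ l ^ 9 := one_le_pow₀ hl1
  have hlp : l ≤ l ^ 9 := by
    calc l = l ^ 1 := (pow_one l).symm
      _ ≤ l ^ 9 := pow_le_pow_right₀ hl1 (by norm_num)
  have he0 : 0 < e := by positivity
  have hel : e * l ≤ 1 := by
    rw [he, div_mul_eq_mul_div, div_le_one (by positivity)]
    have h1 : η * l ≤ 1 * l := mul_le_mul_of_nonneg_right hη1 hl0.le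
    have h2 : 1 * l ≤ M * l ^ 9 := mul_le_mul hM1 hlp hl0.le hM0.le
    linarith
  have he1 : e ≤ 1 := (le_mul_of_one_le_right he0.le hl1).trans hel
  have hgoal : 1 / (3 * M) * η / l ^ 9 = e / 3 := by
    rw [he]
    field_simp
  rw [hgoal]
  by_cases hcs : 1 + e ≤ s.re
  · have h1 := hTL q χ s hq hs1 (by linarith)
    linarith
  rw [not_le] at hcs
  have hcb : ∀ (ψ : DirichletCharacter ℂ q), ψ ≠ 1 → ∀ M : ℕ, ‖∑ n ∈ range M, cv ψ n‖ ≤ q :=
    fun ψ hψ => hCB q ψ hq hψ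
  -- the point `1 + e + i t`
  have hs'eq : ((1 : ℂ) + (e : ℝ) + Complex.I * (t : ℝ)).re = 1 + e := by simp
  have hs'im : ((1 : ℂ) + (e : ℝ) + Complex.I * (t : ℝ)).im = t := by simp
  have hs''re : ((1 : ℂ) + (e : ℝ) + 2 * Complex.I * (t : ℝ)).re = 1 + e := by simp
  have hs''im : ((1 : ℂ) + (e : ℝ) + 2 * Complex.I * (t : ℝ)).im = 2 * t := by simp
  have h0re : ((1 : ℂ) + (e : ℝ)).re = 1 + e := by simp
  have h0im : ((1 : ℂ) + (e : ℝ)).im = 0 := by simp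
  -- the difference
  have hdiff : ‖DS (cv χ) 0 (1 + (e : ℝ) + Complex.I * (t : ℝ)) - DS (cv χ) 0 s‖ ≤
      CD * l ^ 2 * e := by
    have h1 := hDV (cv χ) q |t| (1 + (e : ℝ) + Complex.I * (t : ℝ)) s hq1 ht0 (cv_norm χ)
      (hcb χ hχ) (by rw [hs'eq]; linarith) (by rw [hs'eq]; linarith) hs1 (by linarith)
      (by rw [hs'im]) le_rfl
    refine h1.trans ?_
    have h2 : ‖(1 + (e : ℝ) + Complex.I * (t : ℝ) : ℂ) - s‖ ≤ e := by
      have h3 : (1 + (e : ℝ) + Complex.I * (t : ℝ) : ℂ) - s = ((1 + e - s.re : ℝ) : ℂ) := by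
        apply Complex.ext
        · simp
        · simp [ht]
      rw [h3, Complex.norm_real, Real.norm_eq_abs, abs_of_pos (by linarith)]
      linarith
    exact mul_le_mul_of_nonneg_left h2 (by positivity)
  -- the three factors
  have hA0 : ‖DS (cv (1 : DirichletCharacter ℂ q)) 0 (1 + (e : ℝ))‖ ≤ K0 / e := by
    have h1 := hPR q (1 + (e : ℝ)) hq (by rw [h0re]; linarith) (by rw [h0re]; linarith)
    rw [h0im, abs_zero] at h1
    have h2 : ‖(1 + (e : ℝ) : ℂ) - 1‖ = e := by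
      rw [add_sub_cancel_left, Complex.norm_real, Real.norm_eq_abs, abs_of_pos he0]
    rw [h2] at h1
    have h3 : Real.log (q * (0 + 3)) ≤ l := by
      apply Real.log_le_log (by positivity)
      exact mul_le_mul_of_nonneg_left (by linarith) (by linarith)
    have h4 : l ≤ 1 / e := by
      rw [le_div_iff₀ he0]
      linarith
    have h5 : CR * Real.log (q * (0 + 3)) ≤ CR * (1 / e) :=
      mul_le_mul_of_nonneg_left (h3.trans h4) hCR.le
    calc _ ≤ 1 / e + CR * Real.log (q * (0 + 3)) := h1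
      _ ≤ 1 / e + CR * (1 / e) := by linarith
      _ = K0 / e := by rw [hK0]; ring
  have hlog2 : Real.log (q * (|2 * t| + 3)) ≤ 2 * l := by
    have h1 : Real.log (q * (|2 * t| + 3)) ≤ Real.log ((q * (|t| + 3)) ^ 2) := by
      apply Real.log_le_log (by positivity)
      rw [abs_mul, abs_of_pos (by norm_num : (0 : ℝ) < 2)]
      have h2 : (q : ℝ) * (2 * |t| + 3) ≤ q * (|t| + 3) ^ 2 := by
        apply mul_le_mul_of_nonneg_left _ (by positivity)
        have h4 : (|t| + 3) ^ 2 = |t| ^ 2 + 6 * |t| + 9 := by ring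
        have h5 : 0 ≤ |t| ^ 2 := by positivity
        linarith
      have h3 : (q : ℝ) * (|t| + 3) ^ 2 ≤ q ^ 2 * (|t| + 3) ^ 2 := by
        apply mul_le_mul_of_nonneg_right _ (by positivity)
        exact le_self_pow₀ hq1 two_ne_zero
      calc _ ≤ q * (|t| + 3) ^ 2 := h2
        _ ≤ q ^ 2 * (|t| + 3) ^ 2 := h3
        _ = (q * (|t| + 3)) ^ 2 := by ring
    rw [Real.log_pow] at h1
    exact_mod_cast h1
  have hηl : l ≤ l / η := by
    rw [le_div_iff₀ hη]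
    exact mul_le_of_le_one_right hl0.le hη1
  have hA2 : ‖DS (cv (χ ^ 2)) 0 (1 + (e : ℝ) + 2 * Complex.I * (t : ℝ))‖ ≤ K2 * l / η := by
    have hfin : K2 * l / η = l / η + CR * (2 * (l / η)) + CP * (2 * (l / η)) := by
      rw [hK2]; ring
    have hpos : 0 ≤ l / η := by positivity
    have hposR : 0 ≤ CR * (2 * (l / η)) := by positivity
    have hposP : 0 ≤ CP * (2 * (l / η)) := by positivity
    by_cases h1 : χ ^ 2 = 1
    · have h2 : η ≤ |t| := by
        rcases hcase with h | h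
        · exact absurd h1 h
        · exact h
      rw [h1]
      have h3 := hPR q (1 + (e : ℝ) + 2 * Complex.I * (t : ℝ)) hq (by rw [hs''re]; linarith)
        (by rw [hs''re]; linarith)
      rw [hs''im] at h3
      have h4 : 1 / ‖(1 + (e : ℝ) + 2 * Complex.I * (t : ℝ) : ℂ) - 1‖ ≤ 1 / η := by
        apply one_div_le_one_div_of_le hη
        have h5 := Complex.abs_im_le_norm ((1 + (e : ℝ) + 2 * Complex.I * (t : ℝ) : ℂ) - 1)
        rw [Complex.sub_im, hs''im, Complex.one_im, sub_zero, abs_mul,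
          abs_of_pos (by norm_num : (0 : ℝ) < 2)] at h5
        linarith
      have h6 : 1 / η ≤ l / η := by
        apply div_le_div_of_nonneg_right hl1 hη.le
      have h7 : CR * Real.log (q * (|2 * t| + 3)) ≤ CR * (2 * (l / η)) := by
        apply mul_le_mul_of_nonneg_left _ hCR.le
        linarith
      rw [hfin]
      linarith
    · have h3 := hPB0 (cv (χ ^ 2)) q (1 + (e : ℝ) + 2 * Complex.I * (t : ℝ)) hq1
        (cv_norm _) (hcb _ h1) (by rw [hs''re]; linarith) (by rw [hs''re]; linarith)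
      rw [hs''im, zero_add, pow_one] at h3
      have h7 : CP * Real.log (q * (|2 * t| + 3)) ≤ CP * (2 * (l / η)) := by
        apply mul_le_mul_of_nonneg_left _ hCP.le
        linarith
      rw [hfin]
      linarith
  have hprod := prod_ge χ he0 t
  have hcc : 16 * K0 ^ 3 * K2 * D ^ 4 * (e * l ^ 9) ≤ η := by
    rw [← hM, he]
    apply le_of_eq
    field_simp
  have hmain := real_step he0 hη hl1 hK0' hK2' hD' (norm_nonneg _) (norm_nonneg _)
    (norm_nonneg _) hA0 hA2 hprod hcc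
  have h1 : ‖DS (cv χ) 0 (1 + (e : ℝ) + Complex.I * (t : ℝ))‖ ≤
      ‖DS (cv χ) 0 (1 + (e : ℝ) + Complex.I * (t : ℝ)) - DS (cv χ) 0 s‖ + ‖DS (cv χ) 0 s‖ := by
    have h2 := norm_add_le (DS (cv χ) 0 (1 + (e : ℝ) + Complex.I * (t : ℝ)) - DS (cv χ) 0 s)
      (DS (cv χ) 0 s)
    rwa [sub_add_cancel] at h2
  have hl2 : 1 ≤ l ^ 2 := one_le_pow₀ hl1
  have h3 : CD * l ^ 2 * e ≤ D * (e * l ^ 2) := by
    have h4 : 0 ≤ e * l ^ 2 := by positivity
    have h8 : D * (e * l ^ 2) = e * l ^ 2 + CD * l ^ 2 * e := by rw [hD]; ring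
    linarith
  have h5 : e ≤ D * (e * l ^ 2) := by
    have h6 : e * 1 ≤ e * l ^ 2 := mul_le_mul_of_nonneg_left hl2 he0.le
    have h8 : e * l ^ 2 ≤ D * (e * l ^ 2) := le_mul_of_one_le_left (by positivity) hD'
    linarith
  have h7 : 2 * D * e * l ^ 2 = 2 * (D * (e * l ^ 2)) := by ring
  rw [h7] at hmain
  linarith

end Pool.Agent.H3.BV
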