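import Pool.Agent.H30.BV.Targets

/-!
SB: number of primitive characters (board bv_modules, MP_04ff0f_nt).
-/

set_option autoImplicit false

open Finset Real ArithmeticFunction
open scoped Nat

namespace Pool.Agent.H3.BV

open Pool.Agent.H30.BV

theorem sb : T_SB := by
  intro X Y q hq h hY
  classical
  have : NeZero q := ⟨by omega⟩
  unfold SP
  rw [finsum_eq_sum_of_fintype]
  have h1 : ∀ χ ∈ (univ : Finset (DirichletCharacter ℂ q)),
      (if χ.IsPrimitive then ‖TX X (cv χ)‖ else 0) ≤ Y := by
    intro χ _
    split_ifs with hχ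
    · exact h χ hχ
    · exact hY
  refine (Finset.sum_le_card_nsmul _ _ _ h1).trans (le_of_eq ?_)
  rw [nsmul_eq_mul, Finset.card_univ, ← Nat.card_eq_fintype_card,
    DirichletCharacter.card_eq_totient_of_hasEnoughRootsOfUnity]

end Pool.Agent.H3.BV
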